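import Pool.Agent.P.MP_1206ce_ag.HN.Map
import Pool.Agent.P.MP_1206ce_ag.HG.Jordan

/-! One step of the stability filtration. -/

open scoped Topology
open Filter Set MvPolynomial

noncomputable section

namespace Pool.Agent.HK

theorem HN_comp_mul {V : Type} {s : MvPolynomial V ℂ} {k : ℕ} (hs : s.IsHomogeneous k)
    (y : MvPolynomial V ℂ) (d : ℕ) : homogeneousComponent d (s * y) =
      if k ≤ d then s * homogeneousComponent (d - k) y else 0 := by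
  have h : ∀ i, homogeneousComponent d (s * homogeneousComponent i y) =
      if d = k + i then s * homogeneousComponent i y else 0 := fun i =>
    homogeneousComponent_of_mem (hs.mul (homogeneousComponent_isHomogeneous i y))
  conv_lhs => rw [← sum_homogeneousComponent y, Finset.mul_sum, map_sum]
  simp only [h]
  split_ifs with hk
  · rw [Finset.sum_eq_single (d - k)]
    · rw [if_pos (by omega)]
    · intro i _ hi
      rw [if_neg (by omega)]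
    · intro hi
      rw [homogeneousComponent_eq_zero _ _ (by rw [Finset.mem_range] at hi; omega), mul_zero,
        ite_self]
  · exact Finset.sum_eq_zero fun i _ => if_neg (by omega)

namespace HD

variable {β I Ar τ Λ : Type} [Fintype β] [DecidableEq β] [Fintype I] [DecidableEq I] [Fintype Ar]
  [DecidableEq Ar] [Fintype τ] [DecidableEq τ] [DecidableEq Λ] (D : HD β I Ar τ)

/-- The stability statement for an open part `O` and an ideal `𝔞`. -/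
structure HNO (sl : β → Λ) (O : Set (UU β Ar)) (𝔞 : Ideal (MvPolynomial (β ⊕ τ) ℂ)) : Prop where
  surj : ∀ i : ℤ, ∀ᶠ n in atTop, ∀ φ : EE (D.SP (D.K sl) (Zs O) n),
    EDeg _ (D0 (β ⊕ τ) n + i) φ → ∃ ψ : EE (D.SP (D.K sl) (Zs (D.Om sl)) n),
      EDeg _ (D0 (β ⊕ τ) n + i) ψ ∧
      ψ ∘ₗ ext (D.SP (D.K sl) (Zs O) n) (D.SP (D.K sl) (Zs (D.Om sl)) n) = φ
  ker : ∀ d : ℕ, ∀ᶠ n in atTop, ∀ f : MvPolynomial (β ⊕ τ) ℂ, f.IsHomogeneous d →
    ∀ ψ : EE (D.SP (D.K sl) (Zs (D.Om sl)) n),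
      EDeg _ (D0 (β ⊕ τ) n + 2 * (D.PU sl).card - 2 * d) ψ → D.push sl n ψ = D.aU sl f n →
      (ψ ∘ₗ ext (D.SP (D.K sl) (Zs O) n) (D.SP (D.K sl) (Zs (D.Om sl)) n) = 0 ↔
        ∃ y ∈ 𝔞, Alt (D.lab sl) f = D.hb ^ Fintype.card β * y)

theorem HN_aU_zero (sl : β → Λ) (n : ℕ) : D.aU sl 0 n = 0 :=
  Amb_fcl_zero (D.refines_lab0 sl) D.amb (D.isAct_K sl) (D.invX_U sl) n

theorem HN_aU_sub (sl : β → Λ) (z : ℂ) (f g : MvPolynomial (β ⊕ τ) ℂ) (n : ℕ) :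
    D.aU sl (z • f - g) n = z • D.aU sl f n - D.aU sl g n := by
  have h := fcl_add D.amb (D.isAct_K sl) (TT_subset _) (D.K_subset sl) (D.invX_U sl)
    (z • f - g) g n
  rw [sub_add_cancel, fcl_smul D.amb (D.isAct_K sl) (TT_subset _) (D.K_subset sl)
    (D.invX_U sl)] at h
  exact eq_sub_of_add_eq h.symm

theorem HN_push_deg (sl : β → Λ) (n : ℕ) {j : ℤ} {ψ : EE (D.SP (D.K sl) (Zs (D.Om sl)) n)}
    (h : EDeg _ j ψ) : EDeg _ j (D.push sl n ψ) := by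
  have h1 := EDeg.tw (HN_resOK (D.closedIn_SP (D.isAct_K sl).grp (D.K_subset sl) (D.invX_U sl)
    (D.HN_closed_Om sl) n)) HomC.one h
  rwa [sub_zero] at h1

theorem HN_hb_mem (sl : β → Λ) : D.hb ^ Fintype.card β ∈ Rinv (D.lab sl) :=
  pow_mem (D.X_inr_mem_Rinv sl _) _

theorem HN_hb_hom : (D.hb ^ Fintype.card β).IsHomogeneous (Fintype.card β) :=
  isHomogeneous_X_pow _ _

theorem HN_hb_ne : D.hb ^ Fintype.card β ≠ 0 := pow_ne_zero _ D.hb_ne_zero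

/-- The case of the whole nilpotent locus. -/
theorem HNO_base (sl : β → Λ) : D.HNO sl (D.Om sl) ⊥ := by
  have : Nice (UU β Ar) := D.amb.nice
  have := D.nice_Bor (D.isAct_K sl).grp (D.K_subset sl)
  refine ⟨fun i => Eventually.of_forall fun n φ hφ => ⟨φ, hφ, by rw [ext_self]; rfl⟩, fun d => ?_⟩
  filter_upwards [(D.jordan sl).1.inj (2 * (D.PU sl).card - 2 * d),
    eventually_ge_atTop (d + Fintype.card (β ⊕ τ))] with n h1 h2 f hf ψ hψ hp
  rw [ext_self, LinearMap.comp_id]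
  constructor
  · rintro rfl
    refine ⟨0, Submodule.zero_mem _, ?_⟩
    rw [mul_zero]
    refine amb_inj (D.refines_lab0 sl) D.amb (D.isAct_K sl) (D.invX_U sl) n hf ?_ ?_
    · unfold rng
      omega
    · exact hp.symm.trans (LinearMap.zero_comp _)
  · rintro ⟨y, hy, h⟩
    rw [Ideal.mem_bot.1 hy, mul_zero] at h
    refine h1 ψ (by rwa [← add_sub_assoc]) (hp.trans ?_)
    exact amb_zero_of_Alt (D.refines_lab0 sl) D.amb (D.isAct_K sl) (D.invX_U sl) n h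

/-- Every class on the open part comes from an element of `Y`. -/
theorem HNO.lift {D : HD β I Ar τ} {sl : β → Λ} {O : Set (UU β Ar)}
    {𝔞 : Ideal (MvPolynomial (β ⊕ τ) ℂ)} (H : D.HNO sl O 𝔞) (i : ℤ) :
    ∀ᶠ n in atTop, ∀ ε : EE (D.SP (D.K sl) (Zs O) n), EDeg _ (D0 (β ⊕ τ) n + i) ε →
      ∃ e : EE (D.SP (D.K sl) (Zs (D.Om sl)) n), EDeg _ (D0 (β ⊕ τ) n + i) e ∧
        e ∘ₗ ext (D.SP (D.K sl) (Zs O) n) (D.SP (D.K sl) (Zs (D.Om sl)) n) = ε ∧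
        ∃ g, ∃ y ∈ D.Y sl, D.push sl n e = D.aU sl g n ∧
          Alt (D.lab sl) g = D.hb ^ Fintype.card β * y ∧
          (g = 0 ∨ ∃ d : ℕ, g.IsHomogeneous d ∧ i = 2 * (D.PU sl).card - 2 * d) ∧
          (y ∈ 𝔞 → ε = 0) := by
  filter_upwards [H.surj i, (D.jordan sl).1.inj i,
    (D.jordan sl).1.img (((D.PU sl).card - i / 2).toNat),
    H.ker (((D.PU sl).card - i / 2).toNat)] with n h1 h2 h3 h4 ε hε
  obtain ⟨e, he, rfl⟩ := h1 ε hε
  refine ⟨e, he, rfl, ?_⟩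
  obtain ⟨g, hg, hp⟩ := amb_surj (D.refines_lab0 sl) D.amb (D.isAct_K sl) (D.invX_U sl) n
    (D.HN_push_deg sl n he)
  rcases hg with rfl | ⟨d, hd, hi⟩
  · refine ⟨0, 0, Submodule.zero_mem _, hp, by rw [map_zero, mul_zero], Or.inl rfl, fun _ => ?_⟩
    rw [h2 e he (hp.trans (D.HN_aU_zero sl n)), LinearMap.zero_comp]
  · have e1 : (((D.PU sl).card : ℤ) - i / 2).toNat = d := by omega
    rw [e1] at h3 h4
    rw [hi] at he
    obtain ⟨y, hy, ha⟩ := (h3 g hd).1 ⟨e, he, hp⟩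
    exact ⟨g, y, hy, hp, ha, Or.inr ⟨d, hd, by omega⟩, fun h => (h4 g hd e he hp).2 ⟨y, h, ha⟩⟩

theorem HN_card (sl : β → Λ) (q : Finset β) :
    (D.PU sl).card = (D.PU (spl sl q)).card + (D.PP sl q \ D.PU (spl sl q)).card +
      (D.PU sl \ D.PP sl q).card := by
  have h1 := Finset.card_sdiff_add_card_eq_card (D.PU_spl_subset (sl := sl) q)
  have h2 := Finset.card_sdiff_add_card_eq_card
    (show D.PP sl q ⊆ D.PU sl from Finset.filter_subset _ _)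
  omega

theorem HN_euler_hom (J : Finset (Gam Ar × β × β)) :
    (∏ x ∈ J, linF (D.chi x)).IsHomogeneous J.card := by
  have h := IsHomogeneous.prod J (fun x => linF (D.chi x)) (fun _ => 1)
    fun x _ => linF_isHomogeneous _
  rwa [← Finset.card_eq_sum_ones] at h

theorem HN_Alt_mul (sl : β → Λ) (q : Finset β) {α g y : MvPolynomial (β ⊕ τ) ℂ}
    (hα : α ∈ Rinv (D.lab (spl sl q))) (h : Alt (D.lab (spl sl q)) g = D.hb ^ Fintype.card β * y) :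
    ((Wl (D.lab (spl sl q))).card : ℂ) • Alt (D.lab sl) (g * α) =
      D.hb ^ Fintype.card β * Alt (D.lab sl) (y * α) := by
  rw [← Alt_Alt (D.refines_lab (sl := sl) (sl' := spl sl q) fun _ _ h => congrArg Prod.fst h),
    mul_comm g, Alt_mul hα, h,
    ← Alt_mul (D.HN_hb_mem sl)]
  congr 1
  ring

theorem HN_step {sl : β → Λ} {q : Finset β} {O O₁ O' : Set (UU β Ar)} (o1 : OpenIn O (D.Om sl))
    (o2 : OpenIn O₁ O) (o3 : OpenIn O' (D.Om (spl sl q))) (i1 : InvX (D.K sl) D.act O)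
    (i2 : InvX (D.K sl) D.act O₁) (i3 : InvX (D.K (spl sl q)) D.act O')
    (G0 : ∀ x ∈ LinS co (D.PP sl q), x ∉ O₁)
    (G1 : ∀ x ∈ LinS co (D.PP sl q), trunc (D.PU (spl sl q)) x ∈ O' ↔ x ∈ O)
    (G2 : ∀ x ∈ O \ O₁, ∃ u ∈ D.K sl, D.act u x ∈ LinS co (D.PP sl q))
    (G3 : ∀ x ∈ LinS co (D.PP sl q), ∀ u ∈ D.K sl, D.act u x ∈ LinS co (D.PP sl q) →
      D.act u x ∈ O → u ∈ D.K (spl sl q)) {α : MvPolynomial (β ⊕ τ) ℂ}
    (eα : ∏ x ∈ D.PU sl \ D.PP sl q, linF (D.chi x) = α) (hα : α ∈ Rinv (D.lab (spl sl q)))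
    {𝔞 𝔞₁ 𝔞' : Ideal (MvPolynomial (β ⊕ τ) ℂ)}
    (a1 : ∀ y ∈ D.Y (spl sl q), Alt (D.lab sl) (y * α) ∈ 𝔞 → y ∈ 𝔞')
    (a2 : ∀ y ∈ D.Y (spl sl q), Alt (D.lab sl) (y * α) ∈ 𝔞₁) (a3 : 𝔞 ≤ 𝔞₁)
    (a4 : ∀ y ∈ 𝔞₁, ∃ y' ∈ D.Y (spl sl q), Alt (D.lab sl) y - Alt (D.lab sl) (y' * α) ∈ 𝔞)
    (a5 : ∀ z ∈ 𝔞, ∀ d, homogeneousComponent d z ∈ 𝔞) (H : D.HNO sl O 𝔞)
    (H' : D.HNO (spl sl q) O' 𝔞') : D.HNO sl O₁ 𝔞₁ := by
  have : Nice (UU β Ar) := D.amb.nice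
  have hA := D.isAct_K sl
  have hs := D.K_subset sl
  have := D.nice_Bor hA.grp hs
  have geo := D.HN_geo o1 o2 o3 i1 i2 i3 G0 G1 G2 G3
  have hc := D.HN_card sl q
  have hh := D.HN_euler_hom (D.PU sl \ D.PP sl q)
  rw [eα] at geo hh
  generalize (D.PP sl q \ D.PU (spl sl q)).card = c at geo hc
  generalize (D.PU sl \ D.PP sl q).card = a at hh hc
  have iΩ := D.invX_Zs hs (D.invX_Om sl)
  have iO := D.invX_Zs hs i1
  have iO₁ := D.invX_Zs hs i2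
  have lO := fun n => D.lc_SP hA.grp hs iO (D.HN_lc_open o1) n
  have cS := fun n => D.closedIn_SP hA.grp hs iO (Zs_closedIn o2.diff) n
  have eS : ∀ n, D.SP (D.K sl) (Zs O₁) n =
      D.SP (D.K sl) (Zs O) n \ D.SP (D.K sl) (Zs (O \ O₁)) n := fun n => by
    rw [Zs_diff, D.SP_diff hA.grp hs iO₁,
      sdiff_sdiff_cancel_left (D.openIn_SP hA.grp hs iO (Zs_openIn o2) n).subset]
  have ec := fun n => ext_comp (D.openIn_SP hA.grp hs iO (Zs_openIn o2) n)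
    (D.openIn_SP hA.grp hs iΩ (Zs_openIn o1) n)
  have W := card_Wl_ne_zero (D.lab sl)
  have W' := card_Wl_ne_zero (D.lab (spl sl q))
  have strat : ∀ i : ℤ, ∀ᶠ n in atTop, ∀ χ : EE (D.SP (D.K sl) (Zs (O \ O₁)) n),
      EDeg _ (D0 (β ⊕ τ) n + i) χ → ∃ ψ : EE (D.SP (D.K sl) (Zs (D.Om sl)) n),
        EDeg _ (D0 (β ⊕ τ) n + i) ψ ∧
        ψ ∘ₗ ext (D.SP (D.K sl) (Zs O) n) (D.SP (D.K sl) (Zs (D.Om sl)) n) =
          χ ∘ₗ res (D.SP (D.K sl) (Zs O) n) (D.SP (D.K sl) (Zs (O \ O₁)) n) ∧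
        ∃ f, ∃ y ∈ D.Y (spl sl q), D.push sl n ψ = D.aU sl f n ∧
          ((Wl (D.lab (spl sl q))).card : ℂ) • Alt (D.lab sl) f =
            D.hb ^ Fintype.card β * Alt (D.lab sl) (y * α) ∧
          (∀ d : ℕ, i = 2 * (D.PU sl).card - 2 * d → f.IsHomogeneous d) ∧
          (f = 0 ∨ ∃ d : ℕ, i = 2 * (D.PU sl).card - 2 * d) ∧ (y ∈ 𝔞' → χ = 0) := by
    intro i
    filter_upwards [H'.lift (i - 2 * c)] with n h1 χ hχ
    obtain ⟨Θ, t1, t2, t3⟩ := geo n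
    obtain ⟨e, he, e1, g, y, hy, e2, e3, e4, e5⟩ := h1 (χ ∘ₗ Θ)
      (by rw [← add_sub_assoc]; exact t2 _ χ hχ)
    obtain ⟨ψ, χ', k1, k2, k3, k4⟩ := t3 _ e he
    obtain rfl : χ' = χ := Fund_cancel t1 (k4.trans e1)
    refine ⟨ψ, by rwa [add_assoc, sub_add_cancel] at k1, k3, g * α, y, hy, k2 g e2,
      D.HN_Alt_mul sl q hα e3, fun d hd => ?_, ?_,
      fun h => Fund_cancel t1 ((e5 h).trans (LinearMap.zero_comp _).symm)⟩
    · rcases e4 with rfl | ⟨d', h2, h3⟩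
      · rw [zero_mul]
        exact isHomogeneous_zero _ _ _
      · obtain rfl : d = d' + a := by omega
        exact h2.mul hh
    · rcases e4 with rfl | ⟨d', h2, h3⟩
      · exact Or.inl (zero_mul _)
      · exact Or.inr ⟨d' + a, by push_cast; omega⟩
  have inj : ∀ i : ℤ, ∀ᶠ n in atTop, ∀ χ : EE (D.SP (D.K sl) (Zs (O \ O₁)) n),
      EDeg _ (D0 (β ⊕ τ) n + i) χ →
      χ ∘ₗ res (D.SP (D.K sl) (Zs O) n) (D.SP (D.K sl) (Zs (O \ O₁)) n) = 0 → χ = 0 := by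
    intro i
    filter_upwards [strat i, H.ker (((D.PU sl).card - i / 2).toNat)] with n h1 h2 χ hχ h0
    obtain ⟨ψ, k1, k2, f, y, hy, k3, k4, k5, k6, k7⟩ := h1 χ hχ
    refine k7 (a1 y hy ?_)
    rcases k6 with rfl | ⟨d, hd⟩
    · rw [map_zero, smul_zero] at k4
      rw [(mul_eq_zero.1 k4.symm).resolve_left D.HN_hb_ne]
      exact Submodule.zero_mem _
    · have e1 : (((D.PU sl).card : ℤ) - i / 2).toNat = d := by omega
      rw [e1] at h2
      obtain ⟨z, hz, e2⟩ := (h2 f (k5 d hd) ψ (by rwa [hd, ← add_sub_assoc] at k1) k3).1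
        (k2.trans h0)
      rw [e2, ← mul_smul_comm] at k4
      rw [← mul_left_cancel₀ D.HN_hb_ne k4]
      exact Submodule.smul_of_tower_mem _ _ hz
  refine ⟨fun i => ?_, fun d => ?_⟩
  · filter_upwards [inj (i - 1), H.surj i] with n h1 h2 φ hφ
    obtain ⟨φ₁, k1, k2⟩ := E_surj_of_inj (lO n) (cS n) (eS n)
      (fun χ hχ => h1 χ (by rwa [← add_sub_assoc])) φ hφ
    obtain ⟨ψ, k3, k4⟩ := h2 φ₁ k1
    exact ⟨ψ, k3, by rw [← ec, ← LinearMap.comp_assoc, k4, k2]⟩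
  filter_upwards [strat (2 * (D.PU sl).card - 2 * d), H.ker d,
    (D.jordan (spl sl q)).1.img (d - a)] with n h1 h2 h3 f hf ψ hψ hp
  have sub : ∀ (z : ℂ) (ψ₁ : EE (D.SP (D.K sl) (Zs (D.Om sl)) n)) g, g.IsHomogeneous d →
      EDeg _ (D0 (β ⊕ τ) n + 2 * (D.PU sl).card - 2 * d) ψ₁ → D.push sl n ψ₁ = D.aU sl g n →
      ((z • ψ - ψ₁) ∘ₗ ext (D.SP (D.K sl) (Zs O) n) (D.SP (D.K sl) (Zs (D.Om sl)) n) = 0 ↔
        ∃ y ∈ 𝔞, z • Alt (D.lab sl) f - Alt (D.lab sl) g = D.hb ^ Fintype.card β * y) := by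
    intro z ψ₁ g k1 k2 k3
    have k4 := h2 (z • f - g) (((homogeneousSubmodule _ ℂ d).smul_mem z hf).sub k1) (z • ψ - ψ₁)
      ((hψ.smul z).sub k2) (by
        rw [D.HN_aU_sub, ← hp, ← k3, push, LinearMap.sub_comp, LinearMap.smul_comp])
    rwa [map_sub, map_smul] at k4
  constructor
  · intro h0
    rw [← ec, ← LinearMap.comp_assoc] at h0
    obtain ⟨χ, k1, k2⟩ := E_exact_mid (lO n) (cS n) (eS n)
      (hψ.ext (D.openIn_SP hA.grp hs iΩ (Zs_openIn o1) n)) h0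
    obtain ⟨ψ₁, m1, m2, g, y, hy, m3, m4, m5, -, -⟩ := h1 χ (by rwa [← add_sub_assoc])
    obtain ⟨z, hz, e⟩ := (sub 1 ψ₁ g (m5 d rfl) (by rwa [← add_sub_assoc] at m1) m3).1 (by
      rw [one_smul, LinearMap.sub_comp, m2, k2, sub_self])
    refine ⟨z + ((Wl (D.lab (spl sl q))).card : ℂ)⁻¹ • Alt (D.lab sl) (y * α),
      add_mem (a3 hz) (Submodule.smul_of_tower_mem _ _ (a2 y hy)), ?_⟩
    rw [mul_add, mul_smul_comm, ← m4, smul_smul, inv_mul_cancel₀ W', ← e, one_smul, one_smul,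
      sub_add_cancel]
  · rintro ⟨y, hy, e⟩
    obtain ⟨y', hy', k1⟩ := a4 y hy
    have k2 : ((Wl (D.lab sl)).card : ℂ) • Alt (D.lab sl) f -
        Alt (D.lab sl) (D.hb ^ Fintype.card β * α * y') =
        D.hb ^ Fintype.card β * (Alt (D.lab sl) y - Alt (D.lab sl) (y' * α)) := by
      rw [← Alt_Alt (lab := D.lab sl) (lab₀ := D.lab sl) fun _ _ h => h, e, mul_assoc,
        Alt_mul (D.HN_hb_mem sl), Alt_mul (D.HN_hb_mem sl), mul_comm α, mul_sub]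
    have k3 := congrArg (homogeneousComponent d) k2
    rw [map_sub, map_smul, homogeneousComponent_eq_self (Alt_isHomogeneous _ hf),
      homogeneousComponent_Alt, HN_comp_mul (D.HN_hb_hom.mul hh), HN_comp_mul D.HN_hb_hom] at k3
    have k4 : ∃ z ∈ 𝔞, (if Fintype.card β ≤ d then D.hb ^ Fintype.card β *
        homogeneousComponent (d - Fintype.card β) (Alt (D.lab sl) y - Alt (D.lab sl) (y' * α))
        else 0) = D.hb ^ Fintype.card β * z := by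
      split_ifs
      · exact ⟨_, a5 _ k1 _, rfl⟩
      · exact ⟨0, Submodule.zero_mem _, (mul_zero _).symm⟩
    obtain ⟨z, hz, k4⟩ := k4
    rw [k4] at k3
    have k5 : ∃ ψ₁ : EE (D.SP (D.K sl) (Zs (D.Om sl)) n),
        (((Wl (D.lab sl)).card : ℂ) • ψ - ψ₁) ∘ₗ
          ext (D.SP (D.K sl) (Zs O) n) (D.SP (D.K sl) (Zs (D.Om sl)) n) = 0 ∧
        ψ₁ ∘ₗ ext (D.SP (D.K sl) (Zs O₁) n) (D.SP (D.K sl) (Zs (D.Om sl)) n) = 0 := by
      split_ifs at k3 with hd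
      · have m0 := D.hom_mem_Y _ hy' (d - (Fintype.card β + a))
        have m1 := homogeneousComponent_isHomogeneous (d - (Fintype.card β + a)) y'
        generalize homogeneousComponent (d - (Fintype.card β + a)) y' = w at k3 m0 m1
        have m2 : (D.hb ^ Fintype.card β * w).IsHomogeneous (d - a) := by
          have := D.HN_hb_hom.mul m1
          rwa [show Fintype.card β + (d - (Fintype.card β + a)) = d - a by omega] at this
        obtain ⟨e₁, m3, m4⟩ := (h3 _ m2).2 ⟨_, Submodule.smul_mem _ _ m0, by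
          rw [Alt_mul (D.HN_hb_mem _), Alt_of_anti (D.mem_Y_iff.1 m0).2]⟩
        obtain ⟨Θ, -, -, t3⟩ := geo n
        obtain ⟨ψ₁, χ, n1, n2, n3, -⟩ := t3 _ e₁ m3
        refine ⟨ψ₁, (sub _ ψ₁ _ ?_ ?_ (n2 _ m4)).2 ⟨z, hz, ?_⟩, ?_⟩
        · have := m2.mul hh
          rwa [show d - a + a = d by omega] at this
        · convert n1 using 1
          omega
        · rw [← k3, mul_right_comm]
        · rw [← ec, ← LinearMap.comp_assoc, n3]
          exact E_push_restrict (cS n) (eS n) χ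
      · exact ⟨0, (sub _ 0 0 (isHomogeneous_zero _ _ _) (EDeg.zero _ _)
          ((LinearMap.zero_comp _).trans (D.HN_aU_zero sl n).symm)).2 ⟨z, hz, k3⟩,
          LinearMap.zero_comp _⟩
    obtain ⟨ψ₁, m1, m2⟩ := k5
    have m3 : (((Wl (D.lab sl)).card : ℂ) • ψ - ψ₁) ∘ₗ
        ext (D.SP (D.K sl) (Zs O₁) n) (D.SP (D.K sl) (Zs (D.Om sl)) n) = 0 := by
      rw [← ec, ← LinearMap.comp_assoc, m1, LinearMap.zero_comp]
    rw [LinearMap.sub_comp, m2, sub_zero, LinearMap.smul_comp] at m3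
    exact (smul_eq_zero.1 m3).resolve_left W

end HD

end Pool.Agent.HK
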