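import Pool.Agent.P.MP_1206ce_ag.HG.Stab

/-! The strata of the stability filtration as sets. -/

open scoped Topology
open Filter Set

noncomputable section

namespace Pool.Agent.HK

namespace HD

variable {β I Ar τ Λ : Type} [Fintype β] [DecidableEq β] [Fintype I] [DecidableEq I] [Fintype Ar]
  [DecidableEq Ar] [Fintype τ] [DecidableEq τ] [DecidableEq Λ] (D : HD β I Ar τ)

omit [Fintype β] in
theorem HN_Vq_mono {q p : Finset β} (h : q ⊆ p) : (Vq q : Submodule ℂ (β → ℂ)) ≤ Vq p := by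
  intro z hz
  simp only [Vq, Submodule.mem_pi, Set.mem_ofPred_eq, Submodule.mem_bot] at hz ⊢
  exact fun k hk => hz k fun hq => hk (h hq)

theorem HN_dimS_le {S : Submodule ℂ (β → ℂ)} {p : Finset β} (h : S ≤ Vq p) :
    D.dimS S ≤ D.dimv Finset.univ := (D.dimS_le_dimv h).trans (D.dimv_le p)

theorem HN_Ole_mono (key : (I → ℕ) → ℤ) (p : Finset β) {κ κ' : ℤ} (h : κ ≤ κ') :
    D.Ole key p κ ⊆ D.Ole key p κ' := fun _ hx S h1 h2 h3 => (hx S h1 h2 h3).trans h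

theorem HN_Ole_top (key : (I → ℕ) → ℤ) (p : Finset β) {κ : ℤ}
    (h : ∀ q ⊆ p, key (D.dimv q) ≤ κ) : D.Ole key p κ = univ := by
  refine eq_univ_of_forall fun x S _ h2 _ => ?_
  obtain ⟨q, hq, he⟩ := D.exists_dimv (D.dimS_le_dimv h2)
  rw [← he]
  exact h q hq

theorem HN_Ole_step (key : (I → ℕ) → ℤ) (p : Finset β) {κ : ℤ}
    (h : ∀ q ⊆ p, key (D.dimv q) ≠ κ) : D.Ole key p (κ - 1) = D.Ole key p κ := by
  refine Subset.antisymm (D.HN_Ole_mono key p (by omega)) fun x hx S h1 h2 h3 => ?_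
  obtain ⟨q, hq, he⟩ := D.exists_dimv (D.dimS_le_dimv h2)
  have h4 := hx S h1 h2 h3
  have h5 := h q hq
  rw [he] at h5
  omega

theorem HN_A_insert (key : (I → ℕ) → ℤ) (sl : β → Λ) (p : Finset β) (t : Finset (Finset β)) :
    D.A key sl (insert p t) = D.A key sl t ∩ D.Ole key p (D.last key p) := by
  ext x
  simp only [A, Finset.forall_mem_insert, mem_ofPred_eq, mem_inter_iff]
  tauto

theorem HN_A_empty (key : (I → ℕ) → ℤ) (sl : β → Λ) : D.A key sl ∅ = D.Om sl := by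
  ext x
  simp [A]

theorem HN_Dd_insert (key : (I → ℕ) → ℤ) (sl : β → Λ) (p : Finset β) (t : Finset (Finset β)) :
    D.Dd key sl (insert p t) = D.Dd key sl t ⊔ D.Fs key sl p (D.last key p) := by
  rw [Dd, Dd, Finset.iSup_insert, sup_comm]

theorem HN_Dd_empty (key : (I → ℕ) → ℤ) (sl : β → Λ) : D.Dd key sl ∅ = ⊥ := by
  simp [Dd]

theorem HN_trunc_mem (J : Finset (Gam Ar × β × β)) (x : UU β Ar) : trunc J x ∈ LinS co J := by
  intro i hi
  rw [co_trunc, if_neg hi]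

theorem HN_not_Ole {key : (I → ℕ) → ℤ} {sl : β → Λ} {p q : Finset β} (hq : q ⊆ p) {x : UU β Ar}
    (hx : x ∈ LinS co (D.PP sl q)) : x ∉ D.Ole key p (key (D.dimv q) - 1) := by
  intro h
  have h1 := h (Vq q) (D.gr_Vq q) (HN_Vq_mono hq) (D.mem_PP.1 hx).2
  rw [D.dimS_Vq] at h1
  omega

/-- The open stratum upstairs is the preimage of the semistable locus of the Levi part. -/
theorem HN_G1 {th : I → ℤ} {key : (I → ℕ) → ℤ} (hk : D.IsKey th key) {sl : β → Λ}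
    {t : Finset (Finset β)} (ht : ∀ p ∈ t, IsSlot sl p) {p q : Finset β} (hp : IsSlot sl p)
    (hpt : p ∉ t) (hq : q ⊆ p) (hκ : D.last key p < key (D.dimv q)) {x : UU β Ar}
    (hx : x ∈ LinS co (D.PP sl q)) :
    trunc (D.PU (spl sl q)) x ∈ D.A key (spl sl q) (insert q (insert (p \ q) t)) ↔
      x ∈ D.A key sl t ∩ D.Ole key p (key (D.dimv q)) := by
  obtain ⟨-, -, hne, -, hl1, hl2⟩ := hk.split hq hκ
  obtain ⟨-, -, hs3⟩ := IsSlot.spl hp hq hne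
  have hdis : ∀ p₁ ∈ t, Disjoint p₁ p := fun p₁ h₁ =>
    (hs3 p₁ (ht p₁ h₁) fun h => hpt (h ▸ h₁)).2
  have hU : x ∈ D.U sl := (D.mem_PP.1 hx).1
  have hother : ∀ p₁ ∈ t, trunc (D.PU (spl sl q)) x ∈ D.Ole key p₁ (D.last key p₁) ↔
      x ∈ D.Ole key p₁ (D.last key p₁) := by
    intro p₁ h₁
    constructor
    · intro h S h1 h2 h3
      exact h S h1 h2 fun γ =>
        ((D.lift_inv hp hq hx γ).2.2 p₁ (ht p₁ h₁) (hdis p₁ h₁) h2).2 (h3 γ)
    · intro h S h1 h2 h3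
      exact h S h1 h2 fun γ =>
        ((D.lift_inv hp hq hx γ).2.2 p₁ (ht p₁ h₁) (hdis p₁ h₁) h2).1 (h3 γ)
  constructor
  · rintro ⟨hO, hA⟩
    have hq1 := hA q (Finset.mem_insert_self _ _)
    have hq2 := hA (p \ q) (Finset.mem_insert_of_mem (Finset.mem_insert_self _ _))
    rw [hl1] at hq1
    rw [hl2] at hq2
    refine ⟨⟨⟨hU, (D.nilp_trunc_PP hx).1 hO.2⟩, fun p₁ h₁ => (hother p₁ h₁).1
      (hA p₁ (Finset.mem_insert_of_mem (Finset.mem_insert_of_mem h₁)))⟩, fun S h1 h2 h3 => ?_⟩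
    obtain ⟨S₂, g1, g2, g3, g4⟩ := D.split_inv hp hq hx h1 h2
    have k1 := hq1 (S ⊓ Vq q) (h1.inf (D.gr_Vq q)) inf_le_right fun γ => (g4 γ (h3 γ)).1
    have k2 := hq2 S₂ g1 g2 fun γ => (g4 γ (h3 γ)).2
    have k3 := (hk.le_zero_iff (D.HN_dimS_le g2)).1 k2
    rw [g3]
    exact (hk.num (D.dimv_le q) (g3 ▸ D.HN_dimS_le h2) (D.dimS_le_dimv inf_le_right) k1 k3).1
  · rintro ⟨⟨hO, hA⟩, hO'⟩
    refine ⟨⟨HN_trunc_mem _ x, (D.nilp_trunc_PP hx).2 hO.2⟩, fun p₁ h₁ => ?_⟩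
    rcases Finset.mem_insert.1 h₁ with rfl | h₁
    · rw [hl1]
      intro S h1 h2 h3
      exact hO' S h1 (h2.trans (HN_Vq_mono hq)) fun γ =>
        ((D.lift_inv hp hq hx γ).1 h2).1 (h3 γ)
    rcases Finset.mem_insert.1 h₁ with rfl | h₁
    · rw [hl2]
      intro S h1 h2 h3
      have hle : Vq q ⊔ S ≤ Vq p :=
        sup_le (HN_Vq_mono hq) (h2.trans (HN_Vq_mono Finset.sdiff_subset))
      have k1 := hO' (Vq q ⊔ S) ((D.gr_Vq q).sup h1) hle fun γ =>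
        (D.lift_inv hp hq hx γ).2.1 h2 (h3 γ)
      have k2 := D.HN_dimS_le hle
      rw [D.dimS_Vq_sup h1 h2] at k1 k2
      refine (hk.le_zero_iff (D.HN_dimS_le h2)).2 (not_lt.1 fun h => ?_)
      have k3 := hk.mono _ (D.dimv_le q) _ k2 (by rw [thd_add]; omega)
      omega
    · exact (hother p₁ h₁).2 (hA p₁ h₁)

/-- Every point of the closed stratum is conjugate to a point that fixes `V_q`. -/
theorem HN_G2 {th : I → ℤ} {key : (I → ℕ) → ℤ} (hk : D.IsKey th key) {sl : β → Λ}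
    {p q : Finset β} (hp : IsSlot sl p) (hq : q ⊆ p) {x : UU β Ar} (hU : x ∈ D.U sl)
    (h1 : x ∈ D.Ole key p (key (D.dimv q))) (h2 : x ∉ D.Ole key p (key (D.dimv q) - 1)) :
    ∃ u ∈ D.K sl, D.act u x ∈ LinS co (D.PP sl q) := by
  simp only [Ole, mem_ofPred_eq, not_forall] at h2
  obtain ⟨S, g1, g2, g3, g4⟩ := h2
  have g5 := h1 S g1 g2 g3
  have g6 : D.dimS S = D.dimv q := hk.inj _ (D.HN_dimS_le g2) _ (D.dimv_le q) (by omega)
  obtain ⟨u, hu, he, -⟩ := D.exists_conj hp hq g1 g2 g6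
  refine ⟨u, hu, D.mem_PP.2 ⟨D.invX_U sl u hu x hU, fun γ => ?_⟩⟩
  rw [← he]
  exact ((D.map_gau (D.K_subset sl hu) g1).2.2 x γ).1 (g3 γ)

/-- Uniqueness of the invariant subspace of maximal key. -/
theorem HN_uniq {th : I → ℤ} {key : (I → ℕ) → ℤ} (hk : D.IsKey th key) {p : Finset β}
    {x : UU β Ar} {S S' : Submodule ℂ (β → ℂ)} (g : D.Gr S) (g' : D.Gr S') (l : S ≤ Vq p)
    (l' : S' ≤ Vq p) (i : InvAll x S) (i' : InvAll x S') (hd : D.dimS S' = D.dimS S)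
    (hx : x ∈ D.Ole key p (key (D.dimS S))) : S = S' := by
  have hsup : InvAll x (S ⊔ S') := by
    intro γ z hz
    obtain ⟨a, ha, b, hb, rfl⟩ := Submodule.mem_sup.1 hz
    rw [Matrix.mulVec_add]
    exact Submodule.add_mem_sup (i γ a ha) (i' γ b hb)
  have hinf : InvAll x (S ⊓ S') := fun γ z hz => ⟨i γ z hz.1, i' γ z hz.2⟩
  have k1 := hx _ (g.sup g') (sup_le l l') hsup
  have k2 := hx _ (g.inf g') (inf_le_left.trans l) hinf
  have d0 := D.HN_dimS_le l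
  have d1 := D.HN_dimS_le (sup_le l l')
  have d2 := D.HN_dimS_le (inf_le_left.trans l : S ⊓ S' ≤ Vq p)
  have e := g.dimS_sup_add_inf g'
  have e1 := congrArg (thd th) e
  rw [thd_add, thd_add, hd] at e1
  have t1 : thd th (D.dimS (S ⊔ S')) ≤ thd th (D.dimS S) :=
    not_lt.1 fun h => absurd (hk.mono _ d0 _ d1 h) (by omega)
  have t2 : thd th (D.dimS (S ⊓ S')) ≤ thd th (D.dimS S) :=
    not_lt.1 fun h => absurd (hk.mono _ d0 _ d2 h) (by omega)
  have hle : D.dimS (S ⊓ S') ≤ D.dimS S := D.dimS_mono inf_le_left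
  have hsum : ∑ j, D.dimS S j ≤ ∑ j, D.dimS (S ⊓ S') j :=
    not_lt.1 fun h => absurd (hk.size _ d0 _ d2 (by omega) h) (by omega)
  have heq : D.dimS (S ⊓ S') = D.dimS S := by
    funext j
    refine le_antisymm (hle j) (not_lt.1 fun h => ?_)
    have := Finset.sum_lt_sum (s := Finset.univ) (fun j _ => hle j) ⟨j, Finset.mem_univ j, h⟩
    omega
  have e2 := (g.inf g').eq_of_dimS g inf_le_left heq
  have e3 := (g.inf g').eq_of_dimS g' inf_le_right (heq.trans hd.symm)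
  exact e2.symm.trans e3

/-- Only the Levi subgroup preserves the slice. -/
theorem HN_G3 {th : I → ℤ} {key : (I → ℕ) → ℤ} (hk : D.IsKey th key) {sl : β → Λ}
    {p q : Finset β} (hp : IsSlot sl p) (hq : q ⊆ p) {x : UU β Ar}
    (hx : x ∈ LinS co (D.PP sl q)) {u : Matrix (β ⊕ τ) (β ⊕ τ) ℂ} (hu : u ∈ D.K sl)
    (hx' : D.act u x ∈ LinS co (D.PP sl q)) (hO : D.act u x ∈ D.Ole key p (key (D.dimv q))) :
    u ∈ D.K (spl sl q) := by
  obtain ⟨m1, m2, m3⟩ := D.map_gau (D.K_subset sl hu) (D.gr_Vq q)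
  refine (D.mem_K_spl hu).2 (Eq.symm ?_)
  refine D.HN_uniq hk (p := p) (x := D.act u x) (D.gr_Vq q) m1 (HN_Vq_mono hq) ?_
    (D.mem_PP.1 hx').2 (fun γ => (m3 x γ).1 ((D.mem_PP.1 hx).2 γ)) m2 (by rwa [D.dimS_Vq])
  rw [← D.map_gau_slot hp hu]
  exact Submodule.map_mono (HN_Vq_mono hq)

end HD

end Pool.Agent.HK
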