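import Pool.Agent.P.MP_1206ce_ag.HN.Geo

/-! The multiplication map from the Levi part and its restriction to a closed stratum. -/

open scoped Topology
open Filter Set

noncomputable section

namespace Pool.Agent.HK

section Abs

variable {Y Y' Y'' : Type} [TopologicalSpace Y] [TopologicalSpace Y'] [TopologicalSpace Y'']

theorem HN_nil {A : Set Y} {A' : Set Y'} {π : Y' → Y} {w : Coch Y'} (h : TwOK A A' π w) :
    w [] = 0 := h.2.2.1.1.1.1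

theorem HN_resOK {A B : Set Y} (h : ClosedIn B A) : TwOK A B id one :=
  h.properOn.twOK (one_mem_ZZ B)

theorem HN_res_left {A : Set Y} {A' B' : Set Y'} {π : Y' → Y} {w : Coch Y'} (h : TwOK A A' π w)
    (hc : ClosedIn B' A') : res A' B' ∘ₗ tw A A' π w = tw A B' π w := by
  rw [tw_comp h (HN_resOK hc), pb_id, cup_one (HN_nil h)]
  rfl

theorem HN_res_right {A B : Set Y} {B' : Set Y'} {π : Y' → Y} {w : Coch Y'} (h : TwOK B B' π w)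
    (hc : ClosedIn B A) : tw B B' π w ∘ₗ res A B = tw A B' π w := by
  rw [tw_comp (HN_resOK hc) h, pb_one, one_cup (HN_nil h)]
  rfl

theorem HN_abs [Nice Y] [Nice Y'] {U Ω O S : Set Y} {U' Ω' O' P Ωh Oh : Set Y'} {T : Y' → Y'}
    {t : Coch Y'} {π : Y' → Y} {g : Y → Y'} {m : ℤ} (c1 : ClosedIn Ω U) (o1 : OpenIn O Ω)
    (c2 : ClosedIn S O) (c3 : ClosedIn Ω' U') (o2 : OpenIn O' Ω') (c4 : ClosedIn Ωh P)
    (e1 : Oh = Ωh ∩ T ⁻¹' O') (e2 : Oh = Ωh ∩ π ⁻¹' O) (hm : HomC m t) (t1 : TwOK U' P T t)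
    (t2 : TwOK Ω' Ωh T t) (t3 : TwOK O' Oh T t) (b1 : Function.Bijective (tw U' P T t))
    (b2 : Function.Bijective (tw Ω' Ωh T t)) (b3 : Function.Bijective (tw O' Oh T t))
    (p1 : ProperOn π P U) (p2 : ProperOn π Ωh Ω) (hh : HomeoOn π g Oh S) :
    ∃ Θ : Hc O' →ₗ[ℂ] Hc S, Function.Surjective Θ ∧
      (∀ j (χ : EE S), EDeg S j χ → EDeg O' (j - m) (χ ∘ₗ Θ)) ∧
      ∀ j (e : EE Ω'), EDeg Ω' j e → ∃ (ψ : EE Ω) (χ : EE S), EDeg Ω (j + m) ψ ∧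
        (∀ F : EE P, F ∘ₗ tw U' P T t = e ∘ₗ res U' Ω' → ψ ∘ₗ res U Ω = F ∘ₗ tw U P π one) ∧
        ψ ∘ₗ ext O Ω = χ ∘ₗ res O S ∧ χ ∘ₗ Θ = e ∘ₗ ext O' Ω' := by
  have g1 : TwOK Oh S g one := hh.symm.properOn.twOK (one_mem_ZZ _)
  have g2 : TwOK S Oh π one := hh.properOn.twOK (one_mem_ZZ _)
  have q1 : TwOK U P π one := p1.twOK (one_mem_ZZ _)
  have q2 : TwOK Ω Ωh π one := p2.twOK (one_mem_ZZ _)
  refine ⟨tw Oh S g one ∘ₗ tw O' Oh T t, hh.symm.tw_bijective.2.comp b3.2, fun j χ hχ => ?_,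
    fun j e he => ?_⟩
  · have h1 := EDeg.tw t3 hm (EDeg.tw g1 HomC.one hχ)
    rw [sub_zero] at h1
    exact h1
  obtain ⟨eh, h1, -⟩ := exists_unique_comp b2 e
  have d1 : EDeg Ωh (j + m) eh := EDeg.of_tw t2 hm b2.2 (h1 ▸ he)
  refine ⟨eh ∘ₗ tw Ω Ωh π one, (eh ∘ₗ ext Oh Ωh) ∘ₗ tw S Oh π one, ?_, fun F hF => ?_, ?_, ?_⟩
  · have h2 := EDeg.tw q2 HomC.one d1
    rwa [sub_zero] at h2
  · have h2 : F = eh ∘ₗ res P Ωh := by
      refine Fund_cancel b1.2 ?_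
      rw [hF, LinearMap.comp_assoc, HN_res_left t1 c4, ← HN_res_right t2 c3, ← h1,
        LinearMap.comp_assoc]
    rw [h2, LinearMap.comp_assoc, LinearMap.comp_assoc, HN_res_right q2 c1, HN_res_left q1 c4]
  · rw [LinearMap.comp_assoc, tw_ext q2 o1 e2, LinearMap.comp_assoc, LinearMap.comp_assoc,
      HN_res_right g2 c2]
  · rw [LinearMap.comp_assoc, ← LinearMap.comp_assoc (tw O' Oh T t), Tw_homeo_comp hh.symm,
      LinearMap.id_comp, LinearMap.comp_assoc, ← tw_ext t2 o2 e1, ← h1, LinearMap.comp_assoc]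

end Abs

namespace HD

variable {β I Ar τ Λ : Type} [Fintype β] [DecidableEq β] [Fintype I] [DecidableEq I] [Fintype Ar]
  [DecidableEq Ar] [Fintype τ] [DecidableEq τ] [DecidableEq Λ] (D : HD β I Ar τ)

/-- The preimage of a set of the Levi part in the parabolic part. -/
def HN_hat (sl : β → Λ) (q : Finset β) (S : Set (UU β Ar)) : Set (UU β Ar) :=
  {x | x ∈ LinS co (D.PP sl q) ∧ trunc (D.PU (spl sl q)) x ∈ S}

theorem HN_ok {γ : Gam Ar} {l k l' k' : β} (h1 : D.v l = D.v l') (h2 : D.v k = D.v k')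
    (h : D.ok γ l k) : D.ok γ l' k' := by
  rcases γ with _ | _ | _ <;> simpa only [ok, h1, h2] using h

theorem HN_PU_inv (sl : β → Λ) (γ : Gam Ar) (l k l' k' : β) (h1 : D.v l = D.v l')
    (h2 : sl l = sl l') (h3 : D.v k = D.v k') (h4 : sl k = sl k') (h : (γ, l, k) ∈ D.PU sl) :
    (γ, l', k') ∈ D.PU sl := by
  simp only [PU, Finset.mem_filter, Finset.mem_univ, true_and] at h ⊢
  exact ⟨D.HN_ok h1 h3 h.1, by rw [← h2, ← h4]; exact h.2⟩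

theorem HN_PP_inv (sl : β → Λ) (q : Finset β) (γ : Gam Ar) (l k l' k' : β) (h1 : D.v l = D.v l')
    (h2 : spl sl q l = spl sl q l') (h3 : D.v k = D.v k') (h4 : spl sl q k = spl sl q k')
    (h : (γ, l, k) ∈ D.PP sl q) : (γ, l', k') ∈ D.PP sl q := by
  simp only [spl, Prod.mk.injEq, decide_eq_decide] at h2 h4
  simp only [PP, Finset.mem_filter] at h ⊢
  exact ⟨D.HN_PU_inv sl γ l k l' k' h1 h2.1 h3 h4.1 h.1, fun hk => h2.2.1 (h.2 (h4.2.2 hk))⟩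

theorem HN_K_spl (sl : β → Λ) (q : Finset β) : D.K (spl sl q) ⊆ D.K sl :=
  D.K_mono fun _ _ h => congrArg Prod.fst h

theorem HN_trunc_act (sl : β → Λ) {u : Matrix (β ⊕ τ) (β ⊕ τ) ℂ} (hu : u ∈ D.K sl)
    (x : UU β Ar) : trunc (D.PU sl) (D.act u x) = D.act u (trunc (D.PU sl) x) :=
  (D.invX_LinS (D.HN_PU_inv sl)).2 u hu x

theorem HN_hat_inv (sl : β → Λ) (q : Finset β) {S : Set (UU β Ar)}
    (hS : InvX (D.K (spl sl q)) D.act S) : InvX (D.K (spl sl q)) D.act (D.HN_hat sl q S) := by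
  intro u hu x hx
  refine ⟨D.invX_PP sl q u hu x hx.1, ?_⟩
  rw [D.HN_trunc_act _ hu]
  exact hS u hu _ hx.2

theorem HN_hat_U (sl : β → Λ) (q : Finset β) :
    D.HN_hat sl q (D.U (spl sl q)) = LinS co (D.PP sl q) :=
  Subset.antisymm (fun _ hx => hx.1) fun x hx => ⟨hx, HN_trunc_mem _ x⟩

theorem HN_hat_Om (sl : β → Λ) (q : Finset β) :
    D.HN_hat sl q (Zs (D.Om (spl sl q))) = Zs (D.Om sl) ∩ LinS co (D.PP sl q) := by
  ext x
  constructor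
  · rintro ⟨h1, ⟨-, h2⟩, h3⟩
    refine ⟨⟨⟨(D.mem_PP.1 h1).1, (D.nilp_trunc_PP h1).1 h2⟩, ?_⟩, h1⟩
    simpa only [mem_ofPred_eq, D.Wf_trunc_PP h1] using h3
  · rintro ⟨⟨⟨-, h2⟩, h3⟩, h1⟩
    refine ⟨h1, ⟨HN_trunc_mem _ x, (D.nilp_trunc_PP h1).2 h2⟩, ?_⟩
    simpa only [mem_ofPred_eq, D.Wf_trunc_PP h1] using h3

theorem HN_lc_U (sl : β → Λ) : LC (D.U sl) := D.amb.lc _

theorem HN_closed_Om (sl : β → Λ) : ClosedIn (Zs (D.Om sl)) (D.U sl) :=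
  (closedIn_Zs _).trans ⟨_, D.isClosed_Om sl, (inter_eq_right.2 fun _ hx => hx.1).symm⟩

theorem HN_lc_Om (sl : β → Λ) : LC (Zs (D.Om sl)) := (D.HN_lc_U sl).closedIn (D.HN_closed_Om sl)

theorem HN_lc_open {sl : β → Λ} {O : Set (UU β Ar)} (h : OpenIn O (D.Om sl)) : LC (Zs O) :=
  (D.HN_lc_Om sl).openIn (Zs_openIn h)

theorem HN_SP_eq (L : Set (Matrix (β ⊕ τ) (β ⊕ τ) ℂ)) (S : Set (UU β Ar)) (n : ℕ) :
    D.SP L S n = BI L D.act (S ×ˢ Inj D.lab0 n) := BS_eq _ _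

/-- The Thom isomorphisms over all invariant parts of the Levi part. -/
theorem HN_thom (sl : β → Λ) (q : Finset β) (n : ℕ) : ∃ t : Coch (Bor (D.K (spl sl q)) D.act),
    HomC (2 * ((D.PP sl q \ D.PU (spl sl q)).card : ℤ)) t ∧
    (∀ f, fcl (D.K (spl sl q)) D.act co D.chi D.lab0 (D.PP sl q) f n ∘ₗ
      tw (D.SP (D.K (spl sl q)) (D.U (spl sl q)) n) (D.SP (D.K (spl sl q)) (LinS co (D.PP sl q)) n)
        (bmap (D.K (spl sl q)) D.act (trunc (D.PU (spl sl q))) id) t = D.aU (spl sl q) f n) ∧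
    ∀ S, S ⊆ D.U (spl sl q) → InvX (D.K (spl sl q)) D.act S → LC S → LC (D.HN_hat sl q S) →
      TwOK (D.SP (D.K (spl sl q)) S n) (D.SP (D.K (spl sl q)) (D.HN_hat sl q S) n)
        (bmap (D.K (spl sl q)) D.act (trunc (D.PU (spl sl q))) id) t ∧
      Function.Bijective (tw (D.SP (D.K (spl sl q)) S n)
        (D.SP (D.K (spl sl q)) (D.HN_hat sl q S) n)
        (bmap (D.K (spl sl q)) D.act (trunc (D.PU (spl sl q))) id) t) := by
  have : Nice (UU β Ar) := D.amb.nice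
  obtain ⟨t, ht⟩ := D.exists_thom_trunc (sl := spl sl q) (D.PU_spl_subset q) (D.HN_PP_inv sl q)
    (D.HN_PU_inv _) n
  have hA := D.isAct_K (spl sl q)
  have h0 := ht _ Subset.rfl (D.invX_U _)
  refine ⟨t, ?_, fun f => ?_, fun S h1 h2 h3 h4 => ?_⟩
  · have h1 := h0.2.1
    rwa [Fintype.card_coe] at h1
  · refine fcl_thom D.amb hA (TT_subset _) (D.K_subset _) (D.PU_spl_subset q) (D.invX_PP sl q)
      (D.invX_U _) (co_trunc _) (fun u hu x _ => D.HN_trunc_act _ hu x) ?_ f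
    have e := D.HN_hat_U sl q
    rw [HN_hat] at e
    rwa [e] at h0
  · have h5 := ht S h1 h2
    rw [D.HN_SP_eq, D.HN_SP_eq]
    refine ⟨h5.1, IsThomFor.bijective hA hA (D.inv_SP (D.K_subset _) (D.HN_hat_inv sl q h2) n)
      (D.inv_SP (D.K_subset _) h2 n) (h4.prod (lc_Inj _ n)) (h3.prod (lc_Inj _ n))
      (fun u hu p _ => D.HN_trunc_act _ hu p.1)
      ((continuous_trunc _).comp continuous_fst).continuousOn ?_ h5⟩
    rintro p hp u hu e rfl he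
    exact freeOn_Inj (D.K_subset _) n u hu _ hp.2 he

theorem HN_closed_PP (sl : β → Λ) (q : Finset β) : ClosedIn (LinS co (D.PP sl q)) (D.U sl) :=
  ⟨_, D.amb.isClosed _, (inter_eq_right.2 fun _ hx => (D.mem_PP.1 hx).1).symm⟩

/-- The multiplication map. -/
theorem HN_geo {sl : β → Λ} {q : Finset β} {O O₁ O' : Set (UU β Ar)} (o1 : OpenIn O (D.Om sl))
    (o2 : OpenIn O₁ O) (o3 : OpenIn O' (D.Om (spl sl q))) (i1 : InvX (D.K sl) D.act O)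
    (i2 : InvX (D.K sl) D.act O₁) (i3 : InvX (D.K (spl sl q)) D.act O')
    (G0 : ∀ x ∈ LinS co (D.PP sl q), x ∉ O₁)
    (G1 : ∀ x ∈ LinS co (D.PP sl q), trunc (D.PU (spl sl q)) x ∈ O' ↔ x ∈ O)
    (G2 : ∀ x ∈ O \ O₁, ∃ u ∈ D.K sl, D.act u x ∈ LinS co (D.PP sl q))
    (G3 : ∀ x ∈ LinS co (D.PP sl q), ∀ u ∈ D.K sl, D.act u x ∈ LinS co (D.PP sl q) →
      D.act u x ∈ O → u ∈ D.K (spl sl q)) (n : ℕ) :
    ∃ Θ : Hc (D.SP (D.K (spl sl q)) (Zs O') n) →ₗ[ℂ] Hc (D.SP (D.K sl) (Zs (O \ O₁)) n),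
      Function.Surjective Θ ∧
      (∀ j (χ : EE (D.SP (D.K sl) (Zs (O \ O₁)) n)), EDeg _ j χ →
        EDeg _ (j - 2 * ((D.PP sl q \ D.PU (spl sl q)).card : ℤ)) (χ ∘ₗ Θ)) ∧
      ∀ j (e : EE (D.SP (D.K (spl sl q)) (Zs (D.Om (spl sl q))) n)), EDeg _ j e →
        ∃ (ψ : EE (D.SP (D.K sl) (Zs (D.Om sl)) n)) (χ : EE (D.SP (D.K sl) (Zs (O \ O₁)) n)),
          EDeg _ (j + 2 * ((D.PP sl q \ D.PU (spl sl q)).card : ℤ)) ψ ∧
          (∀ f, D.push (spl sl q) n e = D.aU (spl sl q) f n →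
            D.push sl n ψ = D.aU sl (f * ∏ x ∈ D.PU sl \ D.PP sl q, linF (D.chi x)) n) ∧
          ψ ∘ₗ ext (D.SP (D.K sl) (Zs O) n) (D.SP (D.K sl) (Zs (D.Om sl)) n) =
            χ ∘ₗ res (D.SP (D.K sl) (Zs O) n) (D.SP (D.K sl) (Zs (O \ O₁)) n) ∧
          χ ∘ₗ Θ = e ∘ₗ ext (D.SP (D.K (spl sl q)) (Zs O') n)
            (D.SP (D.K (spl sl q)) (Zs (D.Om (spl sl q))) n) := by
  have : Nice (UU β Ar) := D.amb.nice
  have hA := D.isAct_K sl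
  have hA' := D.isAct_K (spl sl q)
  have hs := D.K_subset sl
  have hs' := D.K_subset (spl sl q)
  have hss := D.HN_K_spl sl q
  have := D.nice_Bor hA.grp hs
  have := D.nice_Bor hA'.grp hs'
  obtain ⟨t, hm, hf, ht⟩ := D.HN_thom sl q n
  have iΩ := D.invX_Zs hs (D.invX_Om sl)
  have iΩ' := D.invX_Zs hs' (D.invX_Om (spl sl q))
  have iO := D.invX_Zs hs i1
  have iO' := D.invX_Zs hs' i3
  have iS := D.invX_Zs hs (InvX.diff hA i1 i2)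
  have cP := D.HN_closed_PP sl q
  have eO : D.HN_hat sl q (Zs O') = Zs O ∩ LinS co (D.PP sl q) := by
    ext x
    constructor
    · rintro ⟨h1, h2, h3⟩
      refine ⟨⟨(G1 x h1).1 h2, ?_⟩, h1⟩
      simpa only [mem_ofPred_eq, D.Wf_trunc_PP h1] using h3
    · rintro ⟨⟨h2, h3⟩, h1⟩
      refine ⟨h1, (G1 x h1).2 h2, ?_⟩
      simpa only [mem_ofPred_eq, D.Wf_trunc_PP h1] using h3
  have eS : D.HN_hat sl q (Zs O') = Zs (O \ O₁) ∩ LinS co (D.PP sl q) := by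
    rw [eO]
    ext x
    exact ⟨fun h => ⟨⟨⟨h.1.1, G0 x h.2⟩, h.1.2⟩, h.2⟩, fun h => ⟨⟨h.1.1.1, h.1.2⟩, h.2⟩⟩
  have cΩ : ClosedIn (D.HN_hat sl q (Zs (D.Om (spl sl q)))) (Zs (D.Om sl)) :=
    ⟨_, D.amb.isClosed _, D.HN_hat_Om sl q⟩
  have cO : ClosedIn (D.HN_hat sl q (Zs O')) (Zs O) := ⟨_, D.amb.isClosed _, eO⟩
  have cS : ClosedIn (D.HN_hat sl q (Zs O')) (Zs (O \ O₁)) := ⟨_, D.amb.isClosed _, eS⟩
  have lO := D.HN_lc_open o1
  have lS : LC (Zs (O \ O₁)) := lO.closedIn (Zs_closedIn o2.diff)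
  obtain ⟨t1, b1⟩ := ht _ Subset.rfl (D.invX_U _) (D.HN_lc_U _)
    (by rw [D.HN_hat_U]; exact D.amb.lc _)
  rw [D.HN_hat_U] at t1 b1
  obtain ⟨t2, b2⟩ := ht _ (D.HN_closed_Om _).subset iΩ' (D.HN_lc_Om _)
    ((D.HN_lc_Om sl).closedIn cΩ)
  obtain ⟨t3, b3⟩ := ht _ ((Zs_openIn o3).subset.trans (D.HN_closed_Om _).subset) iO'
    (D.HN_lc_open o3) (lO.closedIn cO)
  have prop : ∀ {S S' : Set (UU β Ar)}, InvX (D.K sl) D.act S → InvX (D.K (spl sl q)) D.act S' →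
      ClosedIn S' S → ProperOn (bmap (D.K sl) D.act id id : Bor (D.K (spl sl q)) D.act → _)
        (D.SP (D.K (spl sl q)) S' n) (D.SP (D.K sl) S n) := by
    rintro S S' h1 h2 ⟨F, hF, rfl⟩
    rw [D.HN_SP_eq, D.HN_SP_eq]
    refine hA.ind_proper hA'.grp hss (D.inv_SP hs h1 n) (D.inv_SP hs' h2 n)
      ⟨F ×ˢ univ, hF.prod isClosed_univ, ?_⟩
    rw [prod_inter_prod, inter_univ]
  have hΩ := D.HN_hat_inv sl q iΩ'
  have hO := D.HN_hat_inv sl q iO'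
  have bij : BijOn (bmap (D.K sl) D.act id id : Bor (D.K (spl sl q)) D.act → _)
      (D.SP (D.K (spl sl q)) (D.HN_hat sl q (Zs O')) n) (D.SP (D.K sl) (Zs (O \ O₁)) n) := by
    have e : D.SP (D.K sl) (Zs (O \ O₁)) n =
        BI (D.K sl) D.act (D.HN_hat sl q (Zs O') ×ˢ Inj D.lab0 n) := by
      rw [D.HN_SP_eq]
      refine Subset.antisymm ?_ (BI_mono (prod_mono cS.subset Subset.rfl))
      rintro _ ⟨p, hp, rfl⟩
      obtain ⟨u, hu, hP⟩ := G2 p.1 hp.1.1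
      refine ⟨bact D.act u p, ⟨?_, invF_Inj hs n u hu _ hp.2⟩, bmk_bact hu p⟩
      rw [eS]
      exact ⟨iS u hu _ hp.1, hP⟩
    rw [e, D.HN_SP_eq]
    refine hA.ind_bijOn hA'.grp hss fun p hp u hu hp' => ⟨u, ?_, rfl⟩
    have h1 := hp'.1
    rw [eO] at h1
    exact G3 p.1 hp.1.1 u hu h1.2 h1.1.1
  have : Nonempty (Bor (D.K (spl sl q)) D.act) := ⟨bmk _ _ (0, 0)⟩
  obtain ⟨g, hg⟩ := (prop iS hO cS).exists_homeoOn (D.lc_SP hA.grp hs iS lS n) bij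
  have e1 : D.SP (D.K (spl sl q)) (D.HN_hat sl q (Zs O')) n =
      D.SP (D.K (spl sl q)) (D.HN_hat sl q (Zs (D.Om (spl sl q)))) n ∩
        (bmap (D.K (spl sl q)) D.act (trunc (D.PU (spl sl q))) id) ⁻¹'
          D.SP (D.K (spl sl q)) (Zs O') n := by
    rw [D.HN_SP_eq, D.HN_SP_eq, D.HN_SP_eq, bmap_eq_bmp, hA'.inter_preimage_bmp hA'
      (D.inv_SP hs' iO' n) (EqvOn.of_map Subset.rfl fun u hu p _ => D.HN_trunc_act _ hu p.1)]
    congr 1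
    ext p
    exact ⟨fun h => ⟨⟨⟨h.1.1, (Zs_openIn o3).subset h.1.2⟩, h.2⟩, h.1.2, h.2⟩,
      fun h => ⟨⟨h.1.1.1, h.2.1⟩, h.1.2⟩⟩
  have e2 : D.SP (D.K (spl sl q)) (D.HN_hat sl q (Zs O')) n =
      D.SP (D.K (spl sl q)) (D.HN_hat sl q (Zs (D.Om (spl sl q)))) n ∩
        (bmap (D.K sl) D.act id id) ⁻¹' D.SP (D.K sl) (Zs O) n := by
    rw [D.HN_SP_eq, D.HN_SP_eq, D.HN_SP_eq, bmap_eq_bmp, hA'.inter_preimage_bmp hA
      (D.inv_SP hs iO n) (EqvOn.of_map hss fun u hu p _ => rfl), eO, D.HN_hat_Om]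
    congr 1
    ext p
    exact ⟨fun h => ⟨⟨⟨(Zs_openIn o1).subset h.1.1, h.1.2⟩, h.2⟩, h.1.1, h.2⟩,
      fun h => ⟨⟨h.2.1, h.1.1.2⟩, h.1.2⟩⟩
  have c4 : ClosedIn (D.HN_hat sl q (Zs (D.Om (spl sl q)))) (LinS co (D.PP sl q)) :=
    (cΩ.trans (D.HN_closed_Om sl)).of_subset (fun _ hx => hx.1) cP.subset
  obtain ⟨Θ, h1, h2, h3⟩ := HN_abs
    (D.closedIn_SP hA.grp hs (D.invX_U sl) (D.HN_closed_Om sl) n)
    (D.openIn_SP hA.grp hs iΩ (Zs_openIn o1) n)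
    (D.closedIn_SP hA.grp hs iO (Zs_closedIn o2.diff) n)
    (D.closedIn_SP hA'.grp hs' (D.invX_U _) (D.HN_closed_Om _) n)
    (D.openIn_SP hA'.grp hs' iΩ' (Zs_openIn o3) n)
    (D.closedIn_SP hA'.grp hs' (D.invX_PP sl q) c4 n) e1 e2 hm t1 t2 t3 b1 b2 b3
    (prop (D.invX_U sl) (D.invX_PP sl q) cP) (prop iΩ hΩ cΩ) hg
  refine ⟨Θ, h1, h2, fun j e he => ?_⟩
  obtain ⟨ψ, χ, k1, k2, k3, k4⟩ := h3 j e he
  refine ⟨ψ, χ, k1, fun f hf' => ?_, k3, k4⟩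
  rw [push, k2 _ ((hf f).trans hf'.symm)]
  exact fcl_push D.amb hA hs hA'.grp (TT_subset _) hss (Finset.filter_subset _ _) (D.invX_U sl)
    (D.invX_PP sl q) f n

end HD

end Pool.Agent.HK
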